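import Pool.Agent.Lib.MP_0cb87d_ag.HKI.Final

/-!
# MP_0cb87d_ag: L-equivalent hyperkähler manifolds, the integral theorem

`GradedEvenCohomology` is the theory of smooth projective varieties with their even integral
cohomology modulo torsion, as graded unimodular lattices with a Hodge decomposition: its axioms
are the classical formulas for the cohomology of products with the projective line, of projective
bundles, of blow-ups and of disjoint unions, with the cup product.  `LEquivalent` is
L-equivalence in the Grothendieck group of varieties, in the presentation of Bittner.
`Hyperkahler n N` collects classical properties of the even cohomology of a projective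
hyperkähler manifold of dimension `2 n`: the form `q` of Beauville, Bogomolov and Fujiki on `H²`
and the relation of Fujiki with its constant `c`.

Let `X` and `Y` be L-equivalent hyperkähler manifolds of dimension `2 n` with the same constant
`c`, such that the discriminant groups of `H²(X)` and `H²(Y)` are cyclic (as for the manifolds of
type K3^[n], of generalised Kummer type and of type OG10).  Let the ring `R` of Hodge
endomorphisms of the transcendental lattice `T(X)` be real and integrally closed, and let `n` be
odd or `R = ℤ`.  Then `T(X)` and `T(Y)` are Hodge isometric.

For moduli spaces `M`, `M'` of sheaves of dimension `2 n > 2` on K3 surfaces `S`, `S'` one has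
`T(M) = T(S)`, `T(M') = T(S')`, so `S` and `S'` are derived equivalent if `M` and `M'` are
L-equivalent.
-/

namespace Pool.Agent.Results.MP_0cb87d_ag.HyperkahlerIntegral

open Pool.Agent.Lib.MP0cb87d.LEq

theorem result (C : GradedEvenCohomology) (X Y : C.Var) (n : ℕ)
    (hX : Hyperkahler n (C.H X)) (hY : Hyperkahler n (C.H Y)) (h : C.LEquivalent X Y)
    (hc : hX.c = hY.c) (cX : hX.IsCyclic) (cY : hY.IsCyclic)
    (hint : IsIntegrallyClosed hX.multipliers)
    (hreal : ∀ c ∈ hX.multipliers, starRingEnd ℂ c = c) (hn : Odd n ∨ hX.multipliers = ⊥) :
    Hyperkahler.Isometric hX hY :=
  integralHK Pool.Agent.Lib.MP0cb87d.mainHKI C X Y n hX hY h hc cX cY hint hreal hn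

end Pool.Agent.Results.MP_0cb87d_ag.HyperkahlerIntegral
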