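import Pool.Agent.Lib.MP_0cb87d_ag.HK.Bridge

/-!
# MP_0cb87d_ag: L-equivalent hyperkähler manifolds of dimension 2 n, n odd, are isogenous

`GradedEvenCohomology` is the theory of smooth projective varieties with their even integral
cohomology modulo torsion, as graded unimodular lattices with a Hodge decomposition: its axioms
are the classical formulas for the cohomology of products with the projective line, of projective
bundles, of blow-ups and of disjoint unions, with the cup product.  `LEquivalent` is
L-equivalence in the Grothendieck group of varieties, in the presentation of Bittner.
`Hyperkahler n N` collects classical properties of the even cohomology of a projective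
hyperkähler manifold of dimension `2 n`: the form of Beauville, Bogomolov and Fujiki on `H²` and
the relation of Fujiki; for `n = 1` these are the K3 surfaces.

If two hyperkähler manifolds of dimension `2 n`, `n` odd, are L-equivalent, then their rational
transcendental lattices, with the forms `c q`, are Hodge isometric.  In particular L-equivalent
K3 surfaces are isogenous.
-/

namespace Pool.Agent.Results.MP_0cb87d_ag.HyperkahlerOdd

open Pool.Agent.Lib.MP0cb87d.LEq

theorem result (C : GradedEvenCohomology) (X Y : C.Var) (n : ℕ) (hn : Odd n)
    (hX : Hyperkahler n (C.H X)) (hY : Hyperkahler n (C.H Y)) (h : C.LEquivalent X Y) :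
    Hyperkahler.RationallyIsometric hX hY :=
  rationallyHK C X Y n hn hX hY h

end Pool.Agent.Results.MP_0cb87d_ag.HyperkahlerOdd
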