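import Pool.Agent.Lib.MP_0cb87d_ag.K3.Bridge

/-!
# MP_0cb87d_ag: L-equivalent K3 surfaces

`EvenCohomology` is the theory of smooth projective varieties with their even integral cohomology
modulo torsion, as unimodular lattices with a Hodge decomposition: its axioms are the classical
formulas for the cohomology of products with the projective line, of projective bundles, of
blow-ups and of disjoint unions, with the cup product.  `LEquivalent` is L-equivalence in the
Grothendieck group of varieties, in the presentation of Bittner.

Let `X` and `Y` be L-equivalent K3 surfaces, let `R` be the ring of Hodge endomorphisms of the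
transcendental lattice `T(X)` and `O` the ring of integers of its field of fractions.  For every
`m > 0` with `m O ⊆ R` (such `m` exist) there is an injective Hodge map `T(X) → T(Y)`, with image
of index `m ^ r`, `r` the rank, which multiplies the form by `m ^ 2`.  So `X` and `Y` are
isogenous; and if `R` is the maximal order `O` (`m = 1`), then `T(X)` and `T(Y)` are Hodge
isometric, so that `X` and `Y` are derived equivalent (Mukai, Orlov).
-/

namespace Pool.Agent.Results.MP_0cb87d_ag.K3Surfaces

open Pool.Agent.Lib.MP0cb87d.LEq

theorem result (C : EvenCohomology) (X Y : C.Var) (hX : IsK3 (C.H X)) (hY : IsK3 (C.H Y))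
    (h : C.LEquivalent X Y) :
    (∃ m : ℕ, 0 < m ∧ KillsConductor (C.H X) m) ∧
    ∀ m : ℕ, 0 < m → KillsConductor (C.H X) m → HodgeIsogeny (C.H X) (C.H Y) m :=
  k3Surfaces C X Y hX hY h

end Pool.Agent.Results.MP_0cb87d_ag.K3Surfaces
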